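import Pool.Agent.Results.MP_7564fc_nt.FewLongCycles
import Pool.Agent.U513.AP.Rat

/-!
# Rational periodic points of `x ^ 2 + c` for the rational approximations `c` of a real number

The starting file bounds the number of the rational `c` with a denominator at most `H` for which `x ^ 2 + c` has a rational periodic
point of exact period at least `3`. Here: for all real `α` outside of a set of Hausdorff dimension at most `1 / (2 τ)`, there are no
such `c` among the rational numbers with `|α - c| ≤ den(c) ^ (-τ)`, up to finitely many.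
-/

set_option autoImplicit false

open Finset MeasureTheory

namespace Pool.Agent.Results.MP_7564fc_nt.Approximations

open Pool.Agent.U513.AP
open Pool.Agent.Results.MP_7564fc_nt.FewLongCycles (Long)

/-- For every `τ > 0` there is a set `E` of Hausdorff dimension at most `1 / (2 τ)` (of measure zero if `τ > 1 / 2`) such that for all
real `α` outside of `E` all but finitely many rational `c` with `|α - c| ≤ den(c) ^ (-τ)` are such that `x ^ 2 + c` has no rational
periodic point of exact period at least `3`. -/
theorem result (τ : ℝ) (hτ : 0 < τ) :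
    ∃ E : Set ℝ, dimH E ≤ ENNReal.ofReal (1 / 2 / τ) ∧ (1 / 2 < τ → volume E = 0) ∧
      ∀ α : ℝ, α ∉ E → {c : ℚ | Long c ∧ |α - c| ≤ (c.den : ℝ) ^ (-τ)}.Finite := by
  classical
  refine rat_law (B := {c : ℚ | Long c}) (by norm_num) (fun A ε hε => ?_) hτ
  obtain ⟨C, hC⟩ := FewLongCycles.result.2.2.1 ε hε
  refine ⟨C, fun H _ => ?_⟩
  obtain ⟨h1, h2⟩ := hC H
  have hsub : {b : ℚ | b ∈ {c : ℚ | Long c} ∧ |(b : ℝ)| ≤ A ∧ b.den ≤ H} ⊆ {c : ℚ | c.den ≤ H ∧ Long c} :=
    fun b hb => ⟨hb.2.2, hb.1⟩
  exact ⟨h1.subset hsub, (Nat.cast_le.2 (Set.ncard_le_ncard hsub h1)).trans h2⟩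

end Pool.Agent.Results.MP_7564fc_nt.Approximations
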